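import Mathlib
import Pool.Agent.Helper88.LG.Goals

set_option autoImplicit false

/-!
# Packet PK (MP_69be96_nt, frequency of large gaps): choice of the residue classes
-/

open Finset Filter Topology

open scoped Classical

namespace Pool.Agent.Helper49.LG

open Pool.Agent.Helper88.LG

lemma greedy (S T : Finset ℕ) (hT : ∀ p ∈ T, p.Prime) : ∃ r : ℕ → ℕ,
    ((S.filter (fun h => ∀ p ∈ T, h % p ≠ r p)).card : ℝ) ≤ S.card * ∏ p ∈ T, (1 - 1 / (p : ℝ)) := by
  induction T using Finset.induction_on with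
  | empty => exact ⟨fun _ => 0, by simp⟩
  | @insert q T hq ih =>
    obtain ⟨r, hr⟩ := ih fun p hp => hT p (mem_insert_of_mem hp)
    have hqp : q.Prime := hT q (mem_insert_self _ _)
    have hq0 : (0 : ℝ) < q := by exact_mod_cast hqp.pos
    obtain ⟨S', hS'⟩ : ∃ S', S' = S.filter (fun h => ∀ p ∈ T, h % p ≠ r p) := ⟨_, rfl⟩
    rw [← hS'] at hr
    obtain ⟨c, hc, hcS⟩ := Finset.exists_le_card_fiber_of_nsmul_le_card_of_maps_to
      (s := S') (t := range q) (f := fun h => h % q) (b := (S'.card : ℝ) / q)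
      (fun a _ => mem_range.2 (Nat.mod_lt a hqp.pos)) ⟨0, mem_range.2 hqp.pos⟩
      (by rw [card_range, nsmul_eq_mul, mul_div_cancel₀ _ hq0.ne'])
    refine ⟨Function.update r q c, ?_⟩
    have h1 : S.filter (fun h => ∀ p ∈ insert q T, h % p ≠ Function.update r q c p) =
        S'.filter (fun h => ¬ h % q = c) := by
      rw [hS', filter_filter]
      apply filter_congr
      intro h _
      constructor
      · intro hh
        refine ⟨fun p hp => ?_, ?_⟩
        · have h2 := hh p (mem_insert_of_mem hp)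
          rwa [Function.update_of_ne (by rintro rfl; exact hq hp)] at h2
        · have h2 := hh q (mem_insert_self _ _)
          rwa [Function.update_self] at h2
      · rintro ⟨hh, hh'⟩ p hp
        rcases mem_insert.1 hp with hpq | hp'
        · rw [hpq, Function.update_self]; exact hh'
        · have hne : p ≠ q := by intro hpq; rw [hpq] at hp'; exact hq hp'
          rw [Function.update_of_ne hne]
          exact hh p hp'
    rw [h1, prod_insert hq]
    have h2 := Finset.card_filter_add_card_filter_not (s := S') (fun h => h % q = c)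
    have h3 : ((S'.filter (fun h => ¬ h % q = c)).card : ℝ) =
        S'.card - (S'.filter (fun h => h % q = c)).card := by
      rw [← h2]; push_cast; ring
    rw [h3]
    have h4 : (S'.card : ℝ) - (S'.filter (fun h => h % q = c)).card ≤ S'.card * (1 - 1 / q) := by
      have : (S'.card : ℝ) * (1 - 1 / q) = S'.card - S'.card / q := by ring
      rw [this]; linarith
    refine h4.trans ?_
    have h5 : (0 : ℝ) ≤ 1 - 1 / q := by
      rw [sub_nonneg, div_le_one hq0]; exact_mod_cast hqp.one_le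
    calc (S'.card : ℝ) * (1 - 1 / q) ≤ (S.card * ∏ p ∈ T, (1 - 1 / (p : ℝ))) * (1 - 1 / q) :=
          mul_le_mul_of_nonneg_right hr h5
      _ = _ := by ring

theorem pk : StmtPK := by
  intro H w y hwy
  obtain ⟨r, hr⟩ := greedy
    ((Icc 1 H).filter (fun h : ℕ => ∀ p, p.Prime → w < p → p ≤ y → ¬ p ∣ h))
    ((Icc 1 w).filter Nat.Prime) (fun p hp => (mem_filter.1 hp).2)
  obtain ⟨P, hP⟩ : ∃ P : Finset ℕ, P = (range (y + 1)).filter Nat.Prime := ⟨_, rfl⟩
  have hPp : ∀ p ∈ P, p.Prime := fun p hp => by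
    rw [hP] at hp; exact (mem_filter.1 hp).2
  have hPm : ∀ p, p.Prime → p ≤ y → p ∈ P := fun p hp hpy => by
    rw [hP]; exact mem_filter.2 ⟨mem_range.2 (Nat.lt_succ_of_le hpy), hp⟩
  have hs : ∀ p ∈ P, (fun p : ℕ => p) p ≠ 0 := fun p hp => (hPp p hp).ne_zero
  have hpp : Set.Pairwise (P : Set ℕ) (Function.onFun Nat.Coprime (fun p : ℕ => p)) := by
    intro p hp q hq hpq
    exact (Nat.coprime_primes (hPp p hp) (hPp q hq)).2 hpq
  obtain ⟨a, ha⟩ : ∃ a, a = (Nat.chineseRemainderOfFinset
    (fun p => if p ≤ w then p - r p % p else 0) (fun p : ℕ => p) P hs hpp : ℕ) := ⟨_, rfl⟩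
  have ha1 : a < primorial y := by
    have h1 := Nat.chineseRemainderOfFinset_lt_prod
      (fun p => if p ≤ w then p - r p % p else 0) (fun p : ℕ => p) hs hpp
    rw [← ha] at h1
    rw [primorial, ← hP]; exact h1
  have ha2 : ∀ p ∈ P, a ≡ (if p ≤ w then p - r p % p else 0) [MOD p] := by
    intro p hp
    have h1 := (Nat.chineseRemainderOfFinset
      (fun p => if p ≤ w then p - r p % p else 0) (fun p : ℕ => p) P hs hpp).2 p hp
    rw [← ha] at h1
    exact h1
  refine ⟨a, ha1, le_trans ?_ hr⟩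
  rw [Nat.cast_le]
  apply card_le_card
  intro h hh
  rw [mem_filter] at hh
  obtain ⟨hh1, hh2⟩ := hh
  have hnd : ∀ p, p.Prime → p ≤ y → ¬ p ∣ a + h := by
    intro p hp hpy hd
    have h1 : p ∣ primorial y := by
      rw [primorial, ← hP]; exact dvd_prod_of_mem (fun p => p) (hPm p hp hpy)
    have h2 := Nat.dvd_gcd hd h1
    rw [hh2] at h2
    exact hp.one_lt.ne' (Nat.dvd_one.1 h2)
  rw [mem_filter, mem_filter]
  refine ⟨⟨hh1, fun p hp hwp hpy hph => ?_⟩, fun p hp hph => ?_⟩
  · have h1 := ha2 p (hPm p hp hpy)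
    rw [if_neg (by omega)] at h1
    exact hnd p hp hpy (Nat.dvd_add ((Nat.modEq_zero_iff_dvd).1 h1) hph)
  · rw [mem_filter, mem_Icc] at hp
    have hpw : p ≤ w := hp.1.2
    have h1 := ha2 p (hPm p hp.2 (hpw.trans hwy))
    rw [if_pos hpw] at h1
    apply hnd p hp.2 (hpw.trans hwy)
    apply (Nat.modEq_zero_iff_dvd).1
    have h2 : h ≡ r p % p [MOD p] := by
      rw [← hph]
      exact ((Nat.mod_modEq _ _).trans (Nat.mod_modEq _ _)).symm
    have h3 := h1.add h2
    have h4 : p - r p % p + r p % p = p := Nat.sub_add_cancel (Nat.mod_lt _ hp.2.pos).le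
    rw [h4] at h3
    exact h3.trans ((Nat.modEq_zero_iff_dvd).2 dvd_rfl)

end Pool.Agent.Helper49.LG
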