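import Pool.Agent.Helper79.LG.DR

/-!
Project LG (MP_d01c92_ag): packet BASE (levels with `n = 0` or `p = 0`).
-/

set_option autoImplicit false

universe u v

open scoped BigOperators

open Pool.Agent.Helper64.IG Pool.Agent.Helper79.LG

namespace Pool.Agent.Helper49.LG

/-- a field generated by one element -/
theorem td_one (k : Type v) {K : Type u} [Field k] [Field K] [Algebra k K] (z : K) :
    TdLe k ({z} : Set K) 1 := by
  have hr : ({z} : Set K) = Set.range (fun _ : Unit => z) := by
    rw [Set.range_const]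
  rw [hr]
  unfold TdLe
  have halg := alg_gen (F := k) (fun _ : Unit => z)
  refine (halg.trdeg_le_cardinalMk k _).trans ?_
  rw [Nat.cast_one, Cardinal.mk_le_one_iff_set_subsingleton]
  rintro x ⟨_, hx⟩ y ⟨_, hy⟩
  exact Subtype.ext (hx.symm.trans hy)

theorem base_zero {K : Type u} [Field K] {p : ℕ} (ω : Form K 0 p) (hω : IsDec ω)
    (a : Fin p → Ix 0 p) :
    ω a = 0 ∨ ∃ e : ℤ, ω a = (e : K) * ω (fun j => Sum.inr j) := by
  obtain ⟨c, φ, h⟩ := hω
  have ha : ∀ j, ∃ i : Fin p, a j = Sum.inr i := by
    intro j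
    rcases a j with i | i
    · exact i.elim0
    · exact ⟨i, rfl⟩
  choose σ hσ using ha
  by_cases hinj : Function.Injective σ
  · right
    have hbij : Function.Bijective σ := Finite.injective_iff_bijective.1 hinj
    set π : Equiv.Perm (Fin p) := Equiv.ofBijective σ hbij with hπ
    refine ⟨(Equiv.Perm.sign π : ℤ), ?_⟩
    have h1 : Matrix.det (fun i j => φ i (a j)) =
        ((Equiv.Perm.sign π : ℤ) : K) * Matrix.det (fun i j => φ i (Sum.inr j)) := by
      rw [← Matrix.det_permute' π (fun i j => φ i (Sum.inr j))]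
      congr 1
      funext i j
      rw [hσ j]
      rfl
    rw [h a, h (fun j => Sum.inr j), h1]
    ring
  · left
    rw [Function.Injective] at hinj
    push Not at hinj
    obtain ⟨j, j', h1, h2⟩ := hinj
    rw [h a, Matrix.det_zero_of_column_eq h2 (fun i => by rw [hσ j, hσ j', h1]), mul_zero]

theorem base : G_BASE.{u, v} := by
  intro k K _ _ _ n p ω hω hnp
  rcases hnp with rfl | rfl
  · refine mn k K _ {ω (fun j => Sum.inr j)} 1 ?_ (td_one k _)
    rintro y ⟨a, rfl⟩
    rcases base_zero ω hω a with h | ⟨e, h⟩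
    · rw [h]
      exact zero_mem _
    · rw [h]
      exact mul_mem (intCast_mem _ e) (IntermediateField.subset_adjoin k _ (Set.mem_singleton _))
  · refine mn k K _ {ω (fun j => j.elim0)} 1 ?_ (td_one k _)
    rintro y ⟨a, rfl⟩
    have h : a = fun j => j.elim0 := by
      funext j
      exact j.elim0
    rw [h]
    exact IntermediateField.subset_adjoin k _ (Set.mem_singleton _)

end Pool.Agent.Helper49.LG
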